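import Pool.Agent.Helper52.SX.Goals2

/-!
# Project SX: the two decision lists of a list of CNFs
-/

namespace Pool.Agent.Helper96.SX

open Pool.Agent.Helper52.SX
open Pool.Agent.Helper78.DT (DList DList.val)
open Pool.Agent.Helper65.CS (NF)
open Pool.Agent.Helper78.JT (Clause CList Holds)

/-- The value of a decision list which begins with terms, at most one of which is satisfied. -/
theorem val_append {n : ℕ} (x : Fin n → Bool) (g : List (ℕ × Bool) → Bool) (R : DList)
    (a₀ : List (ℕ × Bool)) (l : List (List (ℕ × Bool)))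
    (h : ∀ a ∈ l, (∀ p ∈ a, Pool.Agent.Helper78.JT.coin x p.1 = p.2) ↔ a = a₀) :
    DList.val x (l.map (fun a => (a, g a)) ++ R) = if a₀ ∈ l then g a₀ else DList.val x R := by
  induction l with
  | nil => simp
  | cons a l ih =>
    have ih' := ih fun b hb => h b (List.mem_cons_of_mem _ hb)
    have ha := h a List.mem_cons_self
    rw [List.map_cons, List.cons_append, DList.val]
    by_cases hs : ∀ p ∈ a, Pool.Agent.Helper78.JT.coin x p.1 = p.2
    · have e := ha.1 hs
      rw [if_pos (show ∀ p ∈ ((a, g a) : List (ℕ × Bool) × Bool).1,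
        (if h : p.1 < n then x ⟨p.1, h⟩ else false) = p.2 from hs), if_pos (by rw [e]; simp), e]
    · have e : a₀ ≠ a := fun e => hs (ha.2 e.symm)
      rw [if_neg (show ¬ ∀ p ∈ ((a, g a) : List (ℕ × Bool) × Bool).1,
        (if h : p.1 < n then x ⟨p.1, h⟩ else false) = p.2 from hs), ih']
      simp [List.mem_cons, e]

theorem not_mem_opp {a : List (ℕ × Bool)} (h : (a.map Prod.fst).Nodup) (p : ℕ × Bool)
    (hp : p ∈ a) : (p.1, !p.2) ∉ a := by
  intro hq
  have := List.inj_on_of_nodup_map h hp hq rfl
  have h2 := congrArg Prod.snd this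
  revert h2
  cases p.2 <;> simp

theorem val (hC : ClnStmt) (hL : LevStmt) : ValStmt := by
  intro n D f
  have hcl : ∀ F : List Clause, Cln n (cl n F) := fun F => (hC n F).1
  have hnf : ∀ (e : List Clause × Bool) (g : List (ℕ × Bool) → Bool),
      NF n D (((lvs (cl n e.1) D).filter fun a => decide (nx (cl n e.1) a ≠ 0)).map
        fun a => (a, g a)) := by
    intro e g u hu
    obtain ⟨a, ha, rfl⟩ := List.mem_map.1 hu
    obtain ⟨h1, h2, h3⟩ := (hL n (cl n e.1) D (hcl _)).2.1 a (List.mem_of_mem_filter ha)
    exact ⟨h2.of_map _, h1, fun p hp => ⟨h3 p hp, not_mem_opp h2 p hp⟩⟩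
  have hlen : ∀ (f : CList) (g : List Clause × Bool → List (ℕ × Bool) → Bool),
      (f.flatMap fun e => ((lvs (cl n e.1) D).filter fun a => decide (nx (cl n e.1) a ≠ 0)).map
        fun a => (a, g e a)).length ≤ f.length * 2 ^ D := by
    intro f g
    induction f with
    | nil => simp
    | cons e f ih =>
      rw [List.flatMap_cons, List.length_append, List.length_map, List.length_cons, Nat.succ_mul]
      have h1 := List.length_filter_le (fun a => decide (nx (cl n e.1) a ≠ 0)) (lvs (cl n e.1) D)
      have h2 := (hL n (cl n e.1) D (hcl _)).1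
      omega
  have hNF : ∀ (g : List Clause × Bool → List (ℕ × Bool) → Bool),
      NF n D (f.flatMap fun e => ((lvs (cl n e.1) D).filter fun a =>
        decide (nx (cl n e.1) a ≠ 0)).map fun a => (a, g e a)) := by
    intro g u hu
    obtain ⟨e, -, he⟩ := List.mem_flatMap.1 hu
    exact hnf e (g e) u he
  refine ⟨hNF _, ?_, hlen f _, ?_, fun x => ?_⟩
  · intro u hu
    rcases List.mem_append.1 hu with hu | hu
    · exact hNF _ u hu
    · rw [List.mem_singleton.1 hu]
      exact ⟨List.nodup_nil, Nat.zero_le _, fun p hp => absurd hp List.not_mem_nil⟩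
  · rw [ols, List.length_append, List.length_singleton]
    exact Nat.succ_le_succ (hlen f _)
  · clear hNF hlen hnf
    induction f with
    | nil =>
      refine ⟨fun _ => rfl, fun h => ?_⟩
      simp [ols, DList.val] at h
    | cons e f ih =>
      obtain ⟨h0, h1, h2, h3⟩ := (hL n (cl n e.1) D (hcl _)).2.2 x
      have key : ∀ (g : List (ℕ × Bool) → Bool) (R : DList),
          DList.val x (((lvs (cl n e.1) D).filter fun a => decide (nx (cl n e.1) a ≠ 0)).map
            (fun a => (a, g a)) ++ R) = if nx (cl n e.1) (run (cl n e.1) x D) ≠ 0 then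
              g (run (cl n e.1) x D) else DList.val x R := by
        intro g R
        rw [val_append x g R (run (cl n e.1) x D) _ fun a ha => h1 a (List.mem_of_mem_filter ha)]
        by_cases hz : nx (cl n e.1) (run (cl n e.1) x D) = 0 <;> simp [List.mem_filter, h0, hz]
      have ho : DList.val x (ols n D (e :: f)) =
          if nx (cl n e.1) (run (cl n e.1) x D) ≠ 0 then
            decide (nx (cl n e.1) (run (cl n e.1) x D) = 1) else DList.val x (ols n D f) := by
        rw [← key (fun a => decide (nx (cl n e.1) a = 1)) (ols n D f)]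
        simp only [ols, List.flatMap_cons, List.append_assoc]
      have hv : DList.val x (vls n D (e :: f)) =
          if nx (cl n e.1) (run (cl n e.1) x D) ≠ 0 then
            (decide (nx (cl n e.1) (run (cl n e.1) x D) = 1) && e.2)
            else DList.val x (vls n D f) := by
        rw [← key (fun a => decide (nx (cl n e.1) a = 1) && e.2) (vls n D f)]
        simp only [vls, List.flatMap_cons]
      have hj : Pool.Agent.Helper78.JT.val x (e :: f) =
          if Holds x e.1 then e.2 else Pool.Agent.Helper78.JT.val x f := rfl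
      have hH : Holds x (cl n e.1) ↔ Holds x e.1 := (hC n e.1).2.1 x
      rw [ho, hv, hj]
      rcases Nat.lt_trichotomy (nx (cl n e.1) (run (cl n e.1) x D)) 1 with hz | hz | hz
      · have hz0 : nx (cl n e.1) (run (cl n e.1) x D) = 0 := by omega
        have hnH : ¬ Holds x e.1 := fun h => h3 hz0 (hH.2 h)
        rw [if_neg (not_not.2 hz0), if_neg (not_not.2 hz0), if_neg hnH]
        exact ⟨ih.1, fun h => (ih.2 h).imp fun u hu => ⟨List.mem_cons_of_mem _ hu.1, hu.2⟩⟩
      · have hyH : Holds x e.1 := hH.1 (h2 hz)
        rw [if_pos (by omega), if_pos (by omega), if_pos hyH]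
        simp [hz]
      · rw [if_pos (by omega)]
        refine ⟨fun h => ?_, fun _ => ⟨e, List.mem_cons_self, hz⟩⟩
        exact absurd (of_decide_eq_true h) (by omega)

end Pool.Agent.Helper96.SX
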